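import Pool.Agent.Lib.HYP.Def

/-!
MP_950c68_ag, interface between the blocks: types of reduced good bases.
-/

set_option autoImplicit false

open Polynomial

namespace Pool.Agent.HYP

/-- The norms of a reduced good basis of type `r` (`r 0 = 0`): `- r g, …, - r 1, 0, r 1, …, r g`. -/
def nn (g : ℕ) (r : ℕ → ℕ) (i : Fin (2 * g + 1)) : ℤ := (r (i - g) : ℤ) - r (g - i)

/-- The admissible types. -/
structure Typ (g m : ℕ) (r : ℕ → ℕ) : Prop where
  zero : r 0 = 0
  mono : ∀ j < g, r j ≤ r (j + 1)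
  one : r 1 ≤ m
  step : ∀ j, 1 ≤ j → j < g → r (j + 1) ≤ r j + 2 * m
  top : ∀ j, g < j → r j = 0

/-- A pair of polynomial symmetric matrices with the degrees of a reduced basis of type `r`. -/
structure DegP {k : Type} [Field k] (g m : ℕ) (r : ℕ → ℕ)
    (G1 G2 : Matrix (Fin (2 * g + 1)) (Fin (2 * g + 1)) k[X]) : Prop where
  s1 : G1.transpose = G1
  s2 : G2.transpose = G2
  d1 : ∀ i j, G1 i j ≠ 0 → ((G1 i j).natDegree : ℤ) ≤ nn g r i + nn g r j
  d2 : ∀ i j, G2 i j ≠ 0 → ((G2 i j).natDegree : ℤ) ≤ 2 * m + nn g r i + nn g r j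
  det : ∃ u : k, u ≠ 0 ∧ (-1) ^ g * G1.det = C (u ^ 2)

end Pool.Agent.HYP
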