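import Pool.Agent.Lib.HYP.Def

/-!
MP_950c68_ag (genus g), auxiliary definitions for the proofs: good bases over a subring, evaluation at
a root, the isomorphism of `F[x] / (f)` and of the algebra of the twist, split simple root.
-/

set_option autoImplicit false

open Polynomial

namespace Pool.Agent.HYP

open Pool.Agent.BSDP

/-- The uniformizer is in the valuation ring. -/
theorem pi_mem {F : Type} [Field F] (L : Loc F) : L.pi ∈ L.O := by
  have h : L.O.valuation L.pi < 1 := (L.pi_gen L.pi).2 ⟨1, one_mem _, (mul_one _).symm⟩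
  exact (ValuationSubring.valuation_le_one_iff L.O L.pi).1 h.le

/-- The uniformizer as an element of the valuation ring. -/
def piO {F : Type} [Field F] (L : Loc F) : L.O := ⟨L.pi, pi_mem L⟩

/-- `b` is a good basis for `c` over the subring `R`. -/
structure GoodR {F : Type} [Field F] (R : Subring F) {f : F[X]} (hf : f.Monic) {n : ℕ}
    (c : AdjoinRoot f) (b : Fin n → AdjoinRoot f) : Prop where
  g1 : ∀ i j, gram1 hf c b i j ∈ R
  g2 : ∀ i j, gram2 hf c b i j ∈ R
  unit : ∃ u ∈ R, u * (gram1 hf c b).det = 1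

/-- Evaluation at a root `ξ` of `f`. -/
noncomputable def ev {S : Type} [CommRing S] {f : S[X]} (ξ : S) (h : f.eval ξ = 0) :
    AdjoinRoot f →+* S :=
  AdjoinRoot.lift (RingHom.id S) ξ (by rw [Polynomial.eval₂_id]; exact h)

theorem dn_aux {F : Type} [Field F] {f f' : F[X]} (D : F) (h : f' = f.scaleRoots D) :
    f'.eval₂ ((Algebra.ofId F (AdjoinRoot f)) : F →+* AdjoinRoot f) (D • AdjoinRoot.root f) = 0 := by
  have h1 := Polynomial.scaleRoots_eval₂_mul (p := f)
    ((Algebra.ofId F (AdjoinRoot f)) : F →+* AdjoinRoot f) (AdjoinRoot.root f) D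
  rw [h, Algebra.smul_def]
  refine h1.trans ?_
  have h2 : eval₂ ((Algebra.ofId F (AdjoinRoot f)) : F →+* AdjoinRoot f) (AdjoinRoot.root f) f = 0 :=
    AdjoinRoot.eval₂_root f
  rw [h2, mul_zero]

/-- `F[x] / (f ^ D) → F[x] / (f)`, `θ ↦ D θ`, `f ^ D = D ^ n f (x / D)`. -/
noncomputable def dn {F : Type} [Field F] {f f' : F[X]} (D : F) (h : f' = f.scaleRoots D) :
    AdjoinRoot f' →ₐ[F] AdjoinRoot f :=
  AdjoinRoot.liftAlgHom f' (Algebra.ofId F (AdjoinRoot f)) (D • AdjoinRoot.root f) (dn_aux D h)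

/-- Over the valuation ring `f = (x - ξ) h`, `h` monic of degree `2 g`, irreducible over the residue
field. -/
structure RootAt {F : Type} [Field F] (L : Loc F) (g : ℕ) (f : F[X]) (ξ : L.O) (h : L.O[X]) :
    Prop where
  monic : h.Monic
  deg : h.natDegree = 2 * g
  fac : f = ((X - C ξ) * h).map (algebraMap L.O F)
  irr : Irreducible (h.map (IsLocalRing.residue L.O))

theorem RootAt.root {F : Type} [Field F] {L : Loc F} {g : ℕ} {f : F[X]} {ξ : L.O} {h : L.O[X]}
    (H : RootAt L g f ξ h) : f.eval (ξ : F) = 0 := by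
  rw [H.fac, Polynomial.map_mul, Polynomial.map_sub, Polynomial.map_X, Polynomial.map_C,
    Polynomial.eval_mul]
  have : (X - C ((algebraMap L.O F) ξ)).eval (ξ : F) = 0 := by
    rw [Polynomial.eval_sub, Polynomial.eval_X, Polynomial.eval_C]
    exact sub_self _
  rw [this, zero_mul]

/-- The class of nonsquare unit components at a split simple root. -/
structure EtaAt {F : Type} [Field F] (L : Loc F) {g : ℕ} {f : F[X]} {ξ : L.O} {h : L.O[X]}
    (H : RootAt L g f ξ h) (e : AdjoinRoot f) : Prop where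
  unit : UnitAt L e
  norm : SqNorm e
  ns : ¬ IsSquare (ev (ξ : F) H.root e)

end Pool.Agent.HYP
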