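import Pool.Agent.Lib.BSDP.Def

/-!
MP_950c68_ag: a positive proportion of all odd hyperelliptic pencils `y ^ 2 = f (x)` of genus `g`
over `k(t)`, `q` fixed, has trivial `2`-Selmer group. Definitions: the functional `τ` (coefficient
of `θ ^ (n - 1)`) on `S[θ] = AdjoinRoot f`, Gram matrices, split forms, Mumford pairs, regular
polynomials, good bases, detection, the family.

`k[X][X]` is the ring of polynomials `f (x)` with coefficients in `k[t] = k[X]`.
-/

set_option autoImplicit false

open Polynomial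

namespace Pool.Agent.HYP

open Pool.Agent.BSDP Pool.Agent.BSDFF

/-! ### The algebra `S[θ]`, `f (θ) = 0` -/

section ring

variable {S : Type} [CommRing S]

/-- The coefficient of `θ ^ (n - 1)`, `n` the degree of the monic polynomial `f`. -/
noncomputable def tau {f : S[X]} (hf : f.Monic) : AdjoinRoot f →ₗ[S] S :=
  (lcoeff S (f.natDegree - 1)).comp (AdjoinRoot.modByMonicHom hf)

/-- Base change `S[θ] → T[θ]`. -/
noncomputable def bc {T : Type} [CommRing T] (φ : S →+* T) (f : S[X]) :
    AdjoinRoot f →+* AdjoinRoot (f.map φ) :=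
  AdjoinRoot.map φ f (f.map φ) dvd_rfl

/-- The Gram matrix of `(l, l') ↦ τ (c l l')`. -/
noncomputable def gram1 {f : S[X]} (hf : f.Monic) {n : ℕ} (c : AdjoinRoot f)
    (b : Fin n → AdjoinRoot f) : Matrix (Fin n) (Fin n) S :=
  Matrix.of fun i j => tau hf (c * b i * b j)

/-- The Gram matrix of `(l, l') ↦ τ (θ c l l')`. -/
noncomputable def gram2 {f : S[X]} (hf : f.Monic) {n : ℕ} (c : AdjoinRoot f)
    (b : Fin n → AdjoinRoot f) : Matrix (Fin n) (Fin n) S :=
  Matrix.of fun i j => tau hf (AdjoinRoot.root f * c * b i * b j)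

/-- The basis `1, θ, θ ^ 2, …` -/
noncomputable def std (f : S[X]) (n : ℕ) : Fin n → AdjoinRoot f := fun i => AdjoinRoot.root f ^ (i : ℕ)

/-- The coordinates of a family in the basis `1, θ, θ ^ 2, …` -/
noncomputable def coord {f : S[X]} (hf : f.Monic) {n : ℕ} (b : Fin n → AdjoinRoot f) :
    Matrix (Fin n) (Fin n) S :=
  Matrix.of fun i j => (AdjoinRoot.modByMonicHom hf (b i)).coeff j

/-- `f` is not in the square of an ideal `(π, p)` of `S[x]`, `p` monic of positive degree: for a prime
`π` this means that `f` is not in the square of a maximal ideal of `S[x]` which contains `π`. -/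
def RegP (π : S) (f : S[X]) : Prop :=
  ∀ p a b c : S[X], p.Monic → 1 ≤ p.natDegree → f ≠ C (π ^ 2) * a + C π * p * b + p ^ 2 * c

end ring

/-! ### Quadratic forms and Mumford pairs over a field -/

section field

variable {F : Type} [Field F]

/-- The quadratic form `l ↦ τ (c l ^ 2)` has a totally isotropic subspace of dimension `g`. -/
def Split {f : F[X]} (hf : f.Monic) (g : ℕ) (c : AdjoinRoot f) : Prop :=
  ∃ W : Submodule F (AdjoinRoot f), Module.finrank F W = g ∧
    ∀ l ∈ W, ∀ l' ∈ W, tau hf (c * l * l') = 0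

/-- The quadratic form with symmetric matrix `G` has a totally isotropic subspace of dimension
`g`. -/
def SplitM {n : ℕ} (g : ℕ) (G : Matrix (Fin n) (Fin n) F) : Prop :=
  ∃ W : Submodule F (Fin n → F), Module.finrank F W = g ∧
    ∀ x ∈ W, ∀ y ∈ W, dotProduct x (G.mulVec y) = 0

/-- `(U, V)` is a Mumford pair of the curve `y ^ 2 = f (x)` with `U` monic of degree at most `g` and
prime to `f`: it represents the class of the divisor `div (U) - deg (U) ∞`, `y = V (x)` on it. -/
structure Mumford (f : F[X]) (g : ℕ) (U V : F[X]) : Prop where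
  monic : U.Monic
  deg : U.natDegree ≤ g
  cop : IsCoprime U f
  dvd : U ∣ V ^ 2 - f

/-- `c` is the image under `x - T` of a point of the Jacobian of `y ^ 2 = f (x)` over `F`, modulo
squares: `c = (-1) ^ deg U * U (θ) * square`. -/
def Image (f : F[X]) (g : ℕ) (c : AdjoinRoot f) : Prop :=
  ∃ U V : F[X], Mumford f g U V ∧
    ∃ y : AdjoinRoot f, IsUnit y ∧ c = (-1) ^ U.natDegree * AdjoinRoot.mk f U * y ^ 2

end field

/-! ### Local notions -/

section local_

variable {F : Type} [Field F]

/-- The coefficients of `P` are in the valuation ring. -/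
def Coef (L : Loc F) (P : F[X]) : Prop := ∀ i, P.coeff i ∈ L.O

/-- `c` is in `O[θ]`. -/
def IntE (L : Loc F) {f : F[X]} (c : AdjoinRoot f) : Prop :=
  ∃ P : F[X], Coef L P ∧ c = AdjoinRoot.mk f P

/-- `c` is a unit of `O[θ]` up to squares. -/
def UnitAt (L : Loc F) {f : F[X]} (c : AdjoinRoot f) : Prop :=
  ∃ e e' y : AdjoinRoot f, IntE L e ∧ IntE L e' ∧ e * e' = 1 ∧ IsUnit y ∧ c = e * y ^ 2

/-- `f` is not in the square of a maximal ideal `(π, p)` of `O[x]`. -/
def Reg (L : Loc F) (f : F[X]) : Prop :=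
  ∀ p a b c : F[X], p.Monic → 1 ≤ p.natDegree → Coef L p → Coef L a → Coef L b → Coef L c →
    f ≠ C (L.pi ^ 2) * a + C L.pi * p * b + p ^ 2 * c

/-- The valuation ring is complete. -/
def Complete (L : Loc F) : Prop := IsAdicComplete (IsLocalRing.maximalIdeal L.O) L.O

end local_

/-! ### Detection over a field -/

/-- The pencil `x G1 - G2` of symmetric matrices over a field is *detected*: its determinant is
`det G1 * (x - ρ) * h`, `h` irreducible, and `G1 (w, w) * h (ρ)` is not a square for a vector `w` of the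
kernel at `ρ`. -/
def Det {κ : Type} [Field κ] {n : ℕ} (G1 G2 : Matrix (Fin n) (Fin n) κ) : Prop :=
  ∃ (ρ : κ) (w : Fin n → κ) (h : κ[X]), w ≠ 0 ∧ G2.mulVec w = ρ • G1.mulVec w ∧ h.Monic ∧
    Irreducible h ∧
    ((Matrix.scalar (Fin n) (X : κ[X])) * G1.map C - G2.map C).det = C G1.det * ((X - C ρ) * h) ∧
    ¬ IsSquare (dotProduct w (G1.mulVec w) * h.eval ρ)

/-! ### Global notions over `k(t)` -/

section global

variable {k : Type} [Field k]

/-- `f` with coefficients in `k(t)`. -/
noncomputable abbrev fK (f : k[X][X]) : (RatFunc k)[X] := f.map (algebraMap k[X] (RatFunc k))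

/-- The family: `f` monic of degree `n = 2 g + 1`, no term of degree `n - 1`, the coefficient of
`x ^ j` is `φ.coeff j * t ^ (2 m (n - j)) + lower`, and `f` is regular. -/
structure Fam (g m : ℕ) (φ : k[X]) (f : k[X][X]) : Prop where
  monic : f.Monic
  deg : f.natDegree = 2 * g + 1
  tr : f.coeff (2 * g) = 0
  degc : ∀ j ≤ 2 * g + 1, (f.coeff j).natDegree ≤ 2 * m * (2 * g + 1 - j)
  lead : ∀ j ≤ 2 * g + 1, (f.coeff j).coeff (2 * m * (2 * g + 1 - j)) = φ.coeff j
  reg : ∀ π : k[X], Irreducible π → RegP π f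

/-- The leading form: monic irreducible of degree `2 g + 1` without term of degree `2 g`. -/
structure LeadForm (g : ℕ) (φ : k[X]) : Prop where
  monic : φ.Monic
  deg : φ.natDegree = 2 * g + 1
  tr : φ.coeff (2 * g) = 0
  irr : Irreducible φ

/-- `b` is a good basis for `c`, with polynomial Gram matrices `G1`, `G2`. -/
structure Good {f : k[X][X]} (hf : (fK f).Monic) {n : ℕ} (c : AdjoinRoot (fK f))
    (b : Fin n → AdjoinRoot (fK f)) (G1 G2 : Matrix (Fin n) (Fin n) k[X]) : Prop where
  g1 : gram1 hf c b = G1.map (algebraMap k[X] (RatFunc k))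
  g2 : gram2 hf c b = G2.map (algebraMap k[X] (RatFunc k))
  unit : IsUnit G1.det

/-- The norm of `c` is a nonzero square. -/
def SqNorm {F : Type} [Field F] {f : F[X]} (c : AdjoinRoot f) : Prop :=
  ∃ a : F, a ≠ 0 ∧ Algebra.norm F c = a ^ 2

/-- `c` has square norm and a good basis over `k[t]`. -/
def InU (g : ℕ) {f : k[X][X]} (hf : (fK f).Monic) (c : AdjoinRoot (fK f)) : Prop :=
  SqNorm c ∧ ∃ (b : Fin (2 * g + 1) → AdjoinRoot (fK f))
    (G1 G2 : Matrix (Fin (2 * g + 1)) (Fin (2 * g + 1)) k[X]), Good hf c b G1 G2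

/-- `c` is detected at `π`: it has a good basis whose Gram matrices are detected modulo `π`. -/
def DetG (g : ℕ) {f : k[X][X]} (hf : (fK f).Monic) (π : k[X]) [Fact (Irreducible π)]
    (c : AdjoinRoot (fK f)) : Prop :=
  ∃ (b : Fin (2 * g + 1) → AdjoinRoot (fK f))
    (G1 G2 : Matrix (Fin (2 * g + 1)) (Fin (2 * g + 1)) k[X]), Good hf c b G1 G2 ∧
      Det (G1.map (AdjoinRoot.mk π)) (G2.map (AdjoinRoot.mk π))

/-- Every nontrivial class of `U (f)` is detected at a prime of `V`. -/
def AllDet (g : ℕ) (V : Finset k[X]) (f : k[X][X]) : Prop :=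
  ∀ (hf : (fK f).Monic) (c : AdjoinRoot (fK f)), InU g hf c → ¬ IsSquare c →
    ∃ π ∈ V, ∃ h : Irreducible π, haveI : Fact (Irreducible π) := ⟨h⟩; DetG g hf π c

/-- The local condition at the closed point `w`. -/
def LocIm (g : ℕ) {f : (RatFunc k)[X]} (c : AdjoinRoot f) (w : Place k (RatFunc k)) : Prop :=
  Image (f.map w.toCompletion) g (bc w.toCompletion f c)

/-- The `2`-Selmer group of the Jacobian of `y ^ 2 = f (x)` over `k(t)` is trivial: an element of
`L = k(t)[x] / (f)` of square norm which is, modulo squares and at every place of `k(t)`, the image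
under `x - T` of a point of the Jacobian over the completion is a square. -/
def SelTriv (g : ℕ) (f : k[X][X]) : Prop :=
  ∀ c : AdjoinRoot (fK f), SqNorm c → (∀ w : Place k (RatFunc k), LocIm g c w) → IsSquare c

/-- `f` is a minimal model of height at most `M` of a hyperelliptic curve `y ^ 2 = f (x)` of genus
`g` over `k(t)`. -/
structure InH (g M : ℕ) (f : k[X][X]) : Prop where
  monic : f.Monic
  deg : f.natDegree = 2 * g + 1
  tr : f.coeff (2 * g) = 0
  degc : ∀ j ≤ 2 * g + 1, (f.coeff j).natDegree ≤ 2 * M * (2 * g + 1 - j)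
  sep : (fK f).Separable
  min : ∀ π : k[X], Irreducible π → ¬ ∀ j < 2 * g + 1, π ^ (2 * (2 * g + 1 - j)) ∣ f.coeff j

end global

end Pool.Agent.HYP
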